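import Pool.Agent.Q130.LS.Uni

set_option autoImplicit false

open Finset

namespace Pool.Agent.Q130.LS

open Pool.Agent.H735CB.LSv

theorem almost_all (δ ε : ℝ) (hδ : 0 < δ) (hε : 0 < ε) :
    ∃ τ : ℝ, 0 < τ ∧ ∃ Q0 : ℕ, ∀ Q : ℕ, Q0 ≤ Q → ∀ N : ℕ, (Q : ℝ) ^ δ ≤ N → N ≤ Q →
      ∀ (A : Finset ℕ) (w : ℕ → ℝ) (ρ β : ℝ), A ⊆ Icc 1 N → (∀ a, |w a| ≤ 1) → 0 ≤ ρ → ρ ≤ 1 →
        (N : ℝ) ^ (1 - ρ) ≤ A.card →
        ∑ p ∈ (Icc 1 Q).filter Nat.Prime,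
          ((Bad p N A w ((N : ℝ) ^ β * (Q : ℝ) ^ ε) ((Q : ℝ) ^ (-τ))).ncard : ℝ)
        ≤ (N : ℝ) ^ (1 - β) * ((Q : ℝ) ^ 2 * N) ^ ρ := by
  classical
  obtain ⟨K0, hK0⟩ := exists_nat_ge (2 / δ)
  set K : ℕ := K0 + 1 with hK
  have hK1 : 1 ≤ K := by omega
  have hKr : (0 : ℝ) < K := by exact_mod_cast hK1
  have hKδ : 2 ≤ δ * K := by
    have h1 : 2 / δ ≤ K := hK0.trans (by rw [hK]; push_cast; linarith)
    rw [div_le_iff₀ hδ] at h1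
    linarith
  set η : ℝ := ε / 16 with hη
  have hη0 : 0 < η := by positivity
  obtain ⟨C0, hC00, hdiv⟩ := Pool.Agent.H510R2.divisor_bound (η / K) (by positivity)
  set C1 : ℝ := max C0 1 with hC1
  have hC11 : 1 ≤ C1 := le_max_right _ _
  have hC01 : C0 ≤ C1 := le_max_left _ _
  set C : ℝ := 48 * 2 ^ K * C1 ^ K with hC
  have hCpos : 0 < C := by positivity
  set τ : ℝ := ε / (8 * K) with hτ
  have hτ0 : 0 < τ := by positivity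
  obtain ⟨Q1, hQ1⟩ := exists_nat_ge (C ^ (4 / ε))
  refine ⟨τ, hτ0, max 2 Q1, ?_⟩
  intro Q hQ N hN1 hN2 A w ρ β hA hw hρ0 hρ1 hAN
  have hQ2 : 2 ≤ Q := (le_max_left _ _).trans hQ
  have hQQ1 : Q1 ≤ Q := (le_max_right _ _).trans hQ
  have hQr2 : (2 : ℝ) ≤ Q := by exact_mod_cast hQ2
  have hQ0 : (0 : ℝ) < Q := by linarith
  have hQ1' : (1 : ℝ) ≤ Q := by linarith
  have hN1' : (1 : ℝ) < N := lt_of_lt_of_le (Real.one_lt_rpow (by linarith) hδ) hN1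
  have hNn : 1 < N := by exact_mod_cast hN1'
  have hN0 : (0 : ℝ) < N := by linarith
  have hNQ : (N : ℝ) ≤ Q := by exact_mod_cast hN2
  -- the choice of k
  have hexK : Q ^ 2 ≤ (2 * N) ^ K := by
    have h1 : (Q : ℝ) ^ 2 ≤ (2 * (N : ℝ)) ^ K := by
      calc (Q : ℝ) ^ 2 = (Q : ℝ) ^ (2 : ℝ) := by norm_cast
        _ ≤ (Q : ℝ) ^ (δ * K) := Real.rpow_le_rpow_of_exponent_le hQ1' hKδ
        _ = ((Q : ℝ) ^ δ) ^ K := by rw [Real.rpow_mul hQ0.le, Real.rpow_natCast]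
        _ ≤ (2 * (N : ℝ)) ^ K := pow_le_pow_left₀ (by positivity) (by linarith) K
    exact_mod_cast h1
  have hex : ∃ k : ℕ, Q ^ 2 ≤ (2 * N) ^ k := ⟨K, hexK⟩
  set k := Nat.find hex with hk
  have hk1 : Q ^ 2 ≤ (2 * N) ^ k := Nat.find_spec hex
  have hkK : k ≤ K := Nat.find_min' hex hexK
  have hk0 : k ≠ 0 := by
    intro h
    rw [h, pow_zero] at hk1
    have : 2 ^ 2 ≤ Q ^ 2 := Nat.pow_le_pow_left hQ2 2
    omega
  have hk2 : (2 * N) ^ k ≤ Q ^ 2 * (2 * N) := by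
    obtain ⟨j, hj⟩ := Nat.exists_eq_succ_of_ne_zero hk0
    have h1 : ¬ Q ^ 2 ≤ (2 * N) ^ j := Nat.find_min hex (by omega)
    rw [hj, pow_succ]
    exact Nat.mul_le_mul_right _ (by omega)
  set X : ℝ := (((2 * N) ^ k : ℕ) : ℝ) with hX
  have hXN : X = (2 * (N : ℝ)) ^ k := by rw [hX]; push_cast; rfl
  have hXQ : (Q : ℝ) ^ 2 ≤ X := by rw [hX]; exact_mod_cast hk1
  have hXle : X ≤ (Q : ℝ) ^ 2 * (2 * N) := by rw [hX]; exact_mod_cast hk2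
  have hX1 : 1 ≤ X := by nlinarith
  have hX0 : 0 < X := by linarith
  have hB := fact_count (2 * N) k K η C0 C1 hη0 hK1 hkK hC01 hC00 hC11 hdiv
  set n : ℝ := (A.card : ℝ) with hn
  have hn0 : 0 < n := lt_of_lt_of_le (by positivity) hAN
  set T : ℝ := (N : ℝ) ^ β * (Q : ℝ) ^ ε with hT
  have hT0 : 0 < T := by positivity
  have hbad := bad_count Q N k hk0 A hA w hw T ((Q : ℝ) ^ (-τ)) hT0 (by positivity)
    (C1 ^ K * X ^ η) (by positivity) (by rw [hX]; exact hB)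
  rw [← hX, ← hn] at hbad
  set Z : ℝ := ∑ p ∈ (Icc 1 Q).filter Nat.Prime, ((Bad p N A w T ((Q : ℝ) ^ (-τ))).ncard : ℝ) with hZ
  have hZ0 : 0 ≤ Z := sum_nonneg fun _ _ => Nat.cast_nonneg _
  -- X ≤ X ^ ρ * (2 n) ^ k
  have hXn : X ≤ X ^ ρ * (2 ^ k * n ^ k) := by
    have h1 : X ^ (1 - ρ) ≤ 2 ^ k * n ^ k := by
      have h2 : X ^ (1 - ρ) = ((2 * (N : ℝ)) ^ (1 - ρ)) ^ k := by
        rw [hXN, ← Real.rpow_natCast (2 * (N : ℝ)) k, ← Real.rpow_mul (by positivity),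
          mul_comm (k : ℝ), Real.rpow_mul (by positivity), Real.rpow_natCast]
      rw [h2, ← mul_pow]
      apply pow_le_pow_left₀ (by positivity)
      rw [Real.mul_rpow (by norm_num) hN0.le]
      have h3 : (2 : ℝ) ^ (1 - ρ) ≤ 2 := by
        calc (2 : ℝ) ^ (1 - ρ) ≤ (2 : ℝ) ^ (1 : ℝ) :=
              Real.rpow_le_rpow_of_exponent_le (by norm_num) (by linarith)
          _ = 2 := Real.rpow_one 2
      gcongr
    calc X = X ^ ρ * X ^ (1 - ρ) := by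
          rw [← Real.rpow_add hX0]
          norm_num
      _ ≤ _ := by gcongr
  have hQτ : ((Q : ℝ) ^ (-τ)) ^ (2 * k) = ((Q : ℝ) ^ (2 * k * τ))⁻¹ := by
    rw [← Real.rpow_natCast, ← Real.rpow_mul hQ0.le, ← Real.rpow_neg hQ0.le]
    congr 1
    push_cast
    ring
  have hmain : Z * T ≤ (N : ℝ) * (C * X ^ η * X ^ ρ * (Q : ℝ) ^ (2 * k * τ)) / 2 := by
    have h1 : (Z * T) * n ^ (2 * k) * ((Q : ℝ) ^ (2 * k * τ))⁻¹ ≤
        (2 * N) * (12 * X * (C1 ^ K * X ^ η * n ^ k)) := by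
      have e1 : Z * (T * ((Q : ℝ) ^ (-τ) * n) ^ (2 * k)) =
          (Z * T) * n ^ (2 * k) * ((Q : ℝ) ^ (2 * k * τ))⁻¹ := by
        rw [mul_pow, hQτ]; ring
      rw [← e1]
      refine hbad.trans ?_
      have e2 : (N : ℝ) + 1 ≤ 2 * N := by linarith
      have e3 : 6 * (X + (Q : ℝ) ^ 2) ≤ 12 * X := by linarith
      gcongr
    have h2 : (2 * (N : ℝ)) * (12 * X * (C1 ^ K * X ^ η * n ^ k)) ≤
        (2 * (N : ℝ)) * (12 * (X ^ ρ * (2 ^ k * n ^ k)) * (C1 ^ K * X ^ η * n ^ k)) := by gcongr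
    have h3 : (2 * (N : ℝ)) * (12 * (X ^ ρ * (2 ^ k * n ^ k)) * (C1 ^ K * X ^ η * n ^ k)) ≤
        ((N : ℝ) * (C * X ^ η * X ^ ρ) / 2) * n ^ (2 * k) := by
      have e1 : (2 : ℝ) ^ k ≤ 2 ^ K := pow_le_pow_right₀ (by norm_num) hkK
      calc (2 * (N : ℝ)) * (12 * (X ^ ρ * (2 ^ k * n ^ k)) * (C1 ^ K * X ^ η * n ^ k))
          = (N : ℝ) * (24 * 2 ^ k * C1 ^ K * X ^ η * X ^ ρ) * n ^ (2 * k) := by
            rw [two_mul k, pow_add]; ring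
        _ ≤ (N : ℝ) * (24 * 2 ^ K * C1 ^ K * X ^ η * X ^ ρ) * n ^ (2 * k) := by gcongr
        _ = _ := by rw [hC]; ring
    have h4 := h1.trans (h2.trans h3)
    rw [mul_inv_le_iff₀ (by positivity)] at h4
    have h5 : (Z * T) * n ^ (2 * k) ≤
        ((N : ℝ) * (C * X ^ η * X ^ ρ * (Q : ℝ) ^ (2 * k * τ)) / 2) * n ^ (2 * k) := by
      refine h4.trans (le_of_eq ?_)
      ring
    exact le_of_mul_le_mul_right h5 (by positivity)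
  have hX3 : X ≤ (Q : ℝ) ^ (4 : ℕ) := by
    calc X ≤ (Q : ℝ) ^ 2 * (2 * N) := hXle
      _ ≤ (Q : ℝ) ^ 2 * (Q * Q) := by gcongr
      _ = (Q : ℝ) ^ (4 : ℕ) := by ring
  have hXη : X ^ η ≤ (Q : ℝ) ^ (ε / 4) := by
    calc X ^ η ≤ ((Q : ℝ) ^ (4 : ℕ)) ^ η := Real.rpow_le_rpow hX0.le hX3 hη0.le
      _ = (Q : ℝ) ^ (ε / 4) := by
          rw [← Real.rpow_natCast (Q : ℝ) 4, ← Real.rpow_mul hQ0.le]
          congr 1
          rw [hη]; push_cast; ring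
  have hQk : (Q : ℝ) ^ (2 * k * τ) ≤ (Q : ℝ) ^ (ε / 4) := by
    apply Real.rpow_le_rpow_of_exponent_le hQ1'
    have hkr : (k : ℝ) ≤ K := by exact_mod_cast hkK
    rw [hτ]
    have : 2 * (k : ℝ) * (ε / (8 * K)) = (ε / 4) * (k / K) := by field_simp; ring
    rw [this]
    have h1 : (k : ℝ) / K ≤ 1 := by rw [div_le_one hKr]; exact hkr
    nlinarith
  have hCQ : C ≤ (Q : ℝ) ^ (ε / 4) := by
    have h1 : C ^ (4 / ε) ≤ Q := hQ1.trans (by exact_mod_cast hQQ1)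
    have h2 := Real.rpow_le_rpow (by positivity) h1 (by positivity : (0 : ℝ) ≤ ε / 4)
    rw [← Real.rpow_mul hCpos.le] at h2
    have h3 : 4 / ε * (ε / 4) = 1 := by field_simp
    rwa [h3, Real.rpow_one] at h2
  have hXρ : X ^ ρ ≤ 2 * ((Q : ℝ) ^ 2 * N) ^ ρ := by
    calc X ^ ρ ≤ (2 * ((Q : ℝ) ^ 2 * N)) ^ ρ := by
          apply Real.rpow_le_rpow hX0.le _ hρ0
          linarith
      _ = 2 ^ ρ * ((Q : ℝ) ^ 2 * N) ^ ρ := Real.mul_rpow (by norm_num) (by positivity)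
      _ ≤ 2 * ((Q : ℝ) ^ 2 * N) ^ ρ := by
          apply mul_le_mul_of_nonneg_right _ (by positivity)
          calc (2 : ℝ) ^ ρ ≤ (2 : ℝ) ^ (1 : ℝ) :=
                Real.rpow_le_rpow_of_exponent_le (by norm_num) hρ1
            _ = 2 := Real.rpow_one 2
  have hfin : Z * T ≤ (N : ℝ) * ((Q : ℝ) ^ ε * ((Q : ℝ) ^ 2 * N) ^ ρ) := by
    refine hmain.trans ?_
    have h1 : C * X ^ η * X ^ ρ * (Q : ℝ) ^ (2 * k * τ) ≤
        (Q : ℝ) ^ (ε / 4) * (Q : ℝ) ^ (ε / 4) * (2 * ((Q : ℝ) ^ 2 * N) ^ ρ) * (Q : ℝ) ^ (ε / 4) := by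
      gcongr
    have h2 : (Q : ℝ) ^ (ε / 4) * (Q : ℝ) ^ (ε / 4) * (Q : ℝ) ^ (ε / 4) ≤ (Q : ℝ) ^ ε := by
      rw [← Real.rpow_add hQ0, ← Real.rpow_add hQ0]
      apply Real.rpow_le_rpow_of_exponent_le hQ1'
      linarith
    calc (N : ℝ) * (C * X ^ η * X ^ ρ * (Q : ℝ) ^ (2 * k * τ)) / 2
        ≤ (N : ℝ) * ((Q : ℝ) ^ (ε / 4) * (Q : ℝ) ^ (ε / 4) * (2 * ((Q : ℝ) ^ 2 * N) ^ ρ) *
            (Q : ℝ) ^ (ε / 4)) / 2 := by gcongr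
      _ = (N : ℝ) * (((Q : ℝ) ^ (ε / 4) * (Q : ℝ) ^ (ε / 4) * (Q : ℝ) ^ (ε / 4)) *
            ((Q : ℝ) ^ 2 * N) ^ ρ) := by ring
      _ ≤ _ := by gcongr
  have h6 : (N : ℝ) ^ (1 - β) * (N : ℝ) ^ β = N := by
    rw [← Real.rpow_add hN0]; norm_num
  have h7 : Z * ((N : ℝ) ^ β * (Q : ℝ) ^ ε) ≤
      ((N : ℝ) ^ (1 - β) * ((Q : ℝ) ^ 2 * N) ^ ρ) * ((N : ℝ) ^ β * (Q : ℝ) ^ ε) := by
    rw [← hT]
    refine hfin.trans (le_of_eq ?_)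
    rw [hT]
    calc (N : ℝ) * ((Q : ℝ) ^ ε * ((Q : ℝ) ^ 2 * N) ^ ρ)
        = ((N : ℝ) ^ (1 - β) * (N : ℝ) ^ β) * ((Q : ℝ) ^ ε * ((Q : ℝ) ^ 2 * N) ^ ρ) := by rw [h6]
      _ = _ := by ring
  exact le_of_mul_le_mul_right h7 (by positivity)

end Pool.Agent.Q130.LS
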