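import Mathlib

/-! # The operator norm of character matrices of arbitrary sets, for most characters -/

set_option autoImplicit false

open Finset

namespace Pool.Agent.Q130.LS

open scoped ComplexConjugate

variable {p : ℕ} [Fact p.Prime]

/-- the kernel -/
noncomputable def Kr (χ : DirichletCharacter ℂ p) (A : Finset (ZMod p)) (b b' : ZMod p) : ℂ :=
  ∑ a ∈ A, χ (a - b) * conj (χ (a - b'))

/-- the fourth moment -/
noncomputable def Tr (χ : DirichletCharacter ℂ p) (A B : Finset (ZMod p)) : ℝ :=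
  ∑ b ∈ B, ∑ b' ∈ B, ‖Kr χ A b b'‖ ^ 2

theorem op_bound (χ : DirichletCharacter ℂ p) (A B : Finset (ZMod p)) (f g : ZMod p → ℂ) :
    ‖∑ a ∈ A, ∑ b ∈ B, f a * g b * χ (a - b)‖ ^ 4 ≤
      (∑ a ∈ A, ‖f a‖ ^ 2) ^ 2 * (∑ b ∈ B, ‖g b‖ ^ 2) ^ 2 * Tr χ A B := by
  have h1 : ∑ a ∈ A, ∑ b ∈ B, f a * g b * χ (a - b) = ∑ a ∈ A, f a * ∑ b ∈ B, g b * χ (a - b) := by
    refine sum_congr rfl fun a _ => ?_
    rw [mul_sum]
    exact sum_congr rfl fun b _ => by ring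
  have h2 : ‖∑ a ∈ A, f a * ∑ b ∈ B, g b * χ (a - b)‖ ^ 2 ≤
      (∑ a ∈ A, ‖f a‖ ^ 2) * ∑ a ∈ A, ‖∑ b ∈ B, g b * χ (a - b)‖ ^ 2 := by
    calc ‖∑ a ∈ A, f a * ∑ b ∈ B, g b * χ (a - b)‖ ^ 2
        ≤ (∑ a ∈ A, ‖f a‖ * ‖∑ b ∈ B, g b * χ (a - b)‖) ^ 2 := by
          apply pow_le_pow_left₀ (norm_nonneg _)
          refine (norm_sum_le _ _).trans (le_of_eq ?_)
          exact sum_congr rfl fun a _ => norm_mul _ _
      _ ≤ _ := sum_mul_sq_le_sq_mul_sq A _ _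
  have h3 : ∑ a ∈ A, ‖∑ b ∈ B, g b * χ (a - b)‖ ^ 2 =
      ‖∑ b ∈ B, ∑ b' ∈ B, g b * conj (g b') * Kr χ A b b'‖ := by
    have h4 : ((∑ a ∈ A, ‖∑ b ∈ B, g b * χ (a - b)‖ ^ 2 : ℝ) : ℂ) =
        ∑ b ∈ B, ∑ b' ∈ B, g b * conj (g b') * Kr χ A b b' := by
      push_cast
      have h5 : ∀ a : ZMod p, ((‖∑ b ∈ B, g b * χ (a - b)‖ : ℝ) : ℂ) ^ 2 =
          ∑ b ∈ B, ∑ b' ∈ B, g b * conj (g b') * (χ (a - b) * conj (χ (a - b'))) := by
        intro a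
        have h6 : ((‖∑ b ∈ B, g b * χ (a - b)‖ ^ 2 : ℝ) : ℂ) =
            ∑ b ∈ B, ∑ b' ∈ B, g b * conj (g b') * (χ (a - b) * conj (χ (a - b'))) := by
          rw [← Complex.normSq_eq_norm_sq, ← Complex.mul_conj, map_sum, Finset.sum_mul_sum]
          refine sum_congr rfl fun b _ => sum_congr rfl fun b' _ => ?_
          rw [map_mul (starRingEnd ℂ)]
          ring
        rw [← h6]
        push_cast
        rfl
      rw [sum_congr rfl (fun a _ => h5 a), sum_comm]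
      refine sum_congr rfl fun b _ => ?_
      rw [sum_comm]
      refine sum_congr rfl fun b' _ => ?_
      rw [Kr, mul_sum]
    have h7 : 0 ≤ ∑ a ∈ A, ‖∑ b ∈ B, g b * χ (a - b)‖ ^ 2 := sum_nonneg fun _ _ => by positivity
    rw [← h4, Complex.norm_real, Real.norm_eq_abs, abs_of_nonneg h7]
  have h8 : ‖∑ b ∈ B, ∑ b' ∈ B, g b * conj (g b') * Kr χ A b b'‖ ^ 2 ≤
      (∑ b ∈ B, ‖g b‖ ^ 2) ^ 2 * Tr χ A B := by
    have e1 : ‖∑ b ∈ B, ∑ b' ∈ B, g b * conj (g b') * Kr χ A b b'‖ ≤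
        ∑ w ∈ B ×ˢ B, (‖g w.1‖ * ‖g w.2‖) * ‖Kr χ A w.1 w.2‖ := by
      rw [← sum_product']
      refine (norm_sum_le _ _).trans (le_of_eq ?_)
      refine sum_congr rfl fun w _ => ?_
      rw [norm_mul, norm_mul, RCLike.norm_conj]
    have e2 : ∑ w ∈ B ×ˢ B, (‖g w.1‖ * ‖g w.2‖) ^ 2 = (∑ b ∈ B, ‖g b‖ ^ 2) ^ 2 := by
      rw [sq (∑ b ∈ B, ‖g b‖ ^ 2), sum_mul_sum, ← sum_product']
      refine sum_congr rfl fun w _ => ?_
      ring
    have e3 : ∑ w ∈ B ×ˢ B, ‖Kr χ A w.1 w.2‖ ^ 2 = Tr χ A B := by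
      rw [Tr, ← sum_product']
    rw [← e2, ← e3]
    exact (pow_le_pow_left₀ (norm_nonneg _) e1 2).trans (sum_mul_sq_le_sq_mul_sq _ _ _)
  rw [h1]
  calc ‖∑ a ∈ A, f a * ∑ b ∈ B, g b * χ (a - b)‖ ^ 4
      = (‖∑ a ∈ A, f a * ∑ b ∈ B, g b * χ (a - b)‖ ^ 2) ^ 2 := by ring
    _ ≤ ((∑ a ∈ A, ‖f a‖ ^ 2) * ∑ a ∈ A, ‖∑ b ∈ B, g b * χ (a - b)‖ ^ 2) ^ 2 :=
        pow_le_pow_left₀ (by positivity) h2 2
    _ = (∑ a ∈ A, ‖f a‖ ^ 2) ^ 2 * ‖∑ b ∈ B, ∑ b' ∈ B, g b * conj (g b') * Kr χ A b b'‖ ^ 2 := by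
        rw [h3]; ring
    _ ≤ (∑ a ∈ A, ‖f a‖ ^ 2) ^ 2 * ((∑ b ∈ B, ‖g b‖ ^ 2) ^ 2 * Tr χ A B) := by gcongr
    _ = _ := by ring

theorem char_orth (x y : ZMod p) :
    ∑ χ : DirichletCharacter ℂ p, χ x * conj (χ y) =
      if x = y ∧ y ≠ 0 then (p.totient : ℂ) else 0 := by
  by_cases hy : y = 0
  · subst hy
    have : ∀ χ : DirichletCharacter ℂ p, χ x * conj (χ 0) = 0 := by
      intro χ
      rw [MulChar.map_zero, map_zero, mul_zero]
    simp [this]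
  · have hyu : IsUnit y := isUnit_iff_ne_zero.2 hy
    have h1 : ∀ χ : DirichletCharacter ℂ p, χ x * conj (χ y) = χ (y⁻¹ * x) := by
      intro χ
      have : conj (χ y) = χ⁻¹ y := MulChar.star_apply' χ y
      rw [this, MulChar.inv_apply', ← map_mul, mul_comm]
    simp_rw [h1]
    have h2 := DirichletCharacter.sum_char_inv_mul_char_eq ℂ hyu x
    have h3 : ∀ χ : DirichletCharacter ℂ p, χ (y⁻¹ * x) = χ y⁻¹ * χ x := fun χ => map_mul χ _ _
    simp_rw [h3]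
    rw [h2]
    by_cases hxy : y = x
    · subst hxy
      simp [hy]
    · rw [if_neg hxy, if_neg (fun h => hxy h.1.symm)]

theorem sum_Tr (A B : Finset (ZMod p)) :
    ∑ χ : DirichletCharacter ℂ p, Tr χ A B ≤
      p * ((A.card : ℝ) * B.card ^ 2 + A.card ^ 2 * B.card) := by
  have h1 : ((∑ χ : DirichletCharacter ℂ p, Tr χ A B : ℝ) : ℂ) =
      ∑ b ∈ B, ∑ b' ∈ B, ∑ a ∈ A, ∑ a' ∈ A,
        (if (a - b) * (a' - b') = (a - b') * (a' - b) ∧ (a - b') * (a' - b) ≠ 0 then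
          (p.totient : ℂ) else 0) := by
    have e1 : ∀ χ : DirichletCharacter ℂ p, ((Tr χ A B : ℝ) : ℂ) =
        ∑ b ∈ B, ∑ b' ∈ B, ∑ a ∈ A, ∑ a' ∈ A,
          χ ((a - b) * (a' - b')) * conj (χ ((a - b') * (a' - b))) := by
      intro χ
      rw [Tr]
      push_cast
      refine sum_congr rfl fun b _ => sum_congr rfl fun b' _ => ?_
      have e2 : ((‖Kr χ A b b'‖ : ℝ) : ℂ) ^ 2 = Kr χ A b b' * conj (Kr χ A b b') := by
        rw [Complex.mul_conj, Complex.normSq_eq_norm_sq]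
        push_cast
        rfl
      rw [e2, Kr, map_sum, sum_mul_sum]
      refine sum_congr rfl fun a _ => sum_congr rfl fun a' _ => ?_
      rw [map_mul (starRingEnd ℂ), Complex.conj_conj, map_mul χ, map_mul χ, map_mul (starRingEnd ℂ)]
      ring
    push_cast
    rw [sum_congr rfl (fun χ _ => e1 χ), sum_comm]
    refine sum_congr rfl fun b _ => ?_
    rw [sum_comm]
    refine sum_congr rfl fun b' _ => ?_
    rw [sum_comm]
    refine sum_congr rfl fun a _ => ?_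
    rw [sum_comm]
    refine sum_congr rfl fun a' _ => ?_
    exact char_orth _ _
  have h2 : ∑ χ : DirichletCharacter ℂ p, Tr χ A B =
      ∑ b ∈ B, ∑ b' ∈ B, ∑ a ∈ A, ∑ a' ∈ A,
        (if (a - b) * (a' - b') = (a - b') * (a' - b) ∧ (a - b') * (a' - b) ≠ 0 then
          (p.totient : ℝ) else 0) := by
    have : ((∑ χ : DirichletCharacter ℂ p, Tr χ A B : ℝ) : ℂ) =
        ((∑ b ∈ B, ∑ b' ∈ B, ∑ a ∈ A, ∑ a' ∈ A,
        (if (a - b) * (a' - b') = (a - b') * (a' - b) ∧ (a - b') * (a' - b) ≠ 0 then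
          (p.totient : ℝ) else 0) : ℝ) : ℂ) := by
      rw [h1]
      simp only [Complex.ofReal_sum]
      refine sum_congr rfl fun b _ => sum_congr rfl fun b' _ => sum_congr rfl fun a _ =>
        sum_congr rfl fun a' _ => ?_
      split_ifs <;> simp
    exact_mod_cast this
  rw [h2]
  have hp0 : (0 : ℝ) ≤ p := Nat.cast_nonneg _
  have h3 : ∀ b ∈ B, ∀ b' ∈ B, ∀ a ∈ A, ∀ a' ∈ A,
      (if (a - b) * (a' - b') = (a - b') * (a' - b) ∧ (a - b') * (a' - b) ≠ 0 then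
          (p.totient : ℝ) else 0) ≤ (if a = a' then (p : ℝ) else 0) + (if b = b' then (p : ℝ) else 0) := by
    intro b _ b' _ a _ a' _
    have hz : (a - b) * (a' - b') = (a - b') * (a' - b) → a = a' ∨ b = b' := by
      intro h
      have h4 : (a - a') * (b - b') = 0 := by linear_combination h
      rcases mul_eq_zero.1 h4 with h5 | h5
      · exact Or.inl (sub_eq_zero.1 h5)
      · exact Or.inr (sub_eq_zero.1 h5)
    have ht : (p.totient : ℝ) ≤ p := by exact_mod_cast Nat.totient_le p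
    by_cases hc : (a - b) * (a' - b') = (a - b') * (a' - b) ∧ (a - b') * (a' - b) ≠ 0
    · rw [if_pos hc]
      rcases hz hc.1 with h5 | h5
      · rw [if_pos h5]
        have : (0 : ℝ) ≤ if b = b' then (p : ℝ) else 0 := by split_ifs <;> simp
        linarith
      · rw [if_pos h5]
        have : (0 : ℝ) ≤ if a = a' then (p : ℝ) else 0 := by split_ifs <;> simp
        linarith
    · rw [if_neg hc]
      positivity
  calc _ ≤ ∑ b ∈ B, ∑ b' ∈ B, ∑ a ∈ A, ∑ a' ∈ A,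
        ((if a = a' then (p : ℝ) else 0) + (if b = b' then (p : ℝ) else 0)) :=
        sum_le_sum fun b hb => sum_le_sum fun b' hb' => sum_le_sum fun a ha =>
          sum_le_sum fun a' ha' => h3 b hb b' hb' a ha a' ha'
    _ = _ := by
        simp only [sum_add_distrib, sum_ite_eq, sum_const, nsmul_eq_mul]
        simp only [sum_ite_mem, inter_self, sum_const, nsmul_eq_mul, mul_ite, mul_zero, sum_ite_eq]
        ring

theorem many (A B : Finset (ZMod p)) (τ : ℝ) (hA : A.Nonempty) (hB : B.Nonempty) :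
    ({χ : DirichletCharacter ℂ p | ∃ f g : ZMod p → ℂ,
      (p : ℝ) ^ (-τ) * Real.sqrt (A.card * B.card) *
        (Real.sqrt (∑ a ∈ A, ‖f a‖ ^ 2) * Real.sqrt (∑ b ∈ B, ‖g b‖ ^ 2)) <
        ‖∑ a ∈ A, ∑ b ∈ B, f a * g b * χ (a - b)‖}.ncard : ℝ) ≤
      (p : ℝ) ^ (1 + 4 * τ) * (1 / A.card + 1 / B.card) := by
  classical
  have hp0 : (0 : ℝ) < p := by exact_mod_cast (Fact.out : p.Prime).pos
  have hA0 : (0 : ℝ) < A.card := by exact_mod_cast hA.card_pos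
  have hB0 : (0 : ℝ) < B.card := by exact_mod_cast hB.card_pos
  set Λ : ℝ := ((p : ℝ) ^ (-τ) * Real.sqrt (A.card * B.card)) ^ 4 with hΛ
  have hΛ2 : Λ = (p : ℝ) ^ (-(4 * τ)) * (A.card * B.card) ^ 2 := by
    rw [hΛ, mul_pow, ← Real.rpow_natCast ((p : ℝ) ^ (-τ)) 4, ← Real.rpow_mul hp0.le]
    have : Real.sqrt (A.card * B.card) ^ 4 = ((A.card : ℝ) * B.card) ^ 2 := by
      rw [show (4 : ℕ) = 2 * 2 by norm_num, pow_mul, Real.sq_sqrt (by positivity)]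
    rw [this]
    congr 2
    push_cast
    ring
  have hΛ0 : 0 < Λ := by rw [hΛ2]; positivity
  set E := {χ : DirichletCharacter ℂ p | ∃ f g : ZMod p → ℂ,
      (p : ℝ) ^ (-τ) * Real.sqrt (A.card * B.card) *
        (Real.sqrt (∑ a ∈ A, ‖f a‖ ^ 2) * Real.sqrt (∑ b ∈ B, ‖g b‖ ^ 2)) <
        ‖∑ a ∈ A, ∑ b ∈ B, f a * g b * χ (a - b)‖} with hE
  have h1 : ∀ χ ∈ E, Λ ≤ Tr χ A B := by
    intro χ hχ
    obtain ⟨f, g, hfg⟩ := hχ
    set F := ∑ a ∈ A, ‖f a‖ ^ 2 with hF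
    set G := ∑ b ∈ B, ‖g b‖ ^ 2 with hG
    have hF0 : 0 ≤ F := sum_nonneg fun _ _ => by positivity
    have hG0 : 0 ≤ G := sum_nonneg fun _ _ => by positivity
    have h2 := op_bound χ A B f g
    rw [← hF, ← hG] at h2
    have h3 : ((p : ℝ) ^ (-τ) * Real.sqrt (A.card * B.card) * (Real.sqrt F * Real.sqrt G)) ^ 4 <
        ‖∑ a ∈ A, ∑ b ∈ B, f a * g b * χ (a - b)‖ ^ 4 :=
      pow_lt_pow_left₀ hfg (by positivity) (by norm_num)
    have h4 : ((p : ℝ) ^ (-τ) * Real.sqrt (A.card * B.card) * (Real.sqrt F * Real.sqrt G)) ^ 4 =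
        Λ * (F ^ 2 * G ^ 2) := by
      rw [mul_pow, ← hΛ, mul_pow]
      congr 1
      rw [show (4 : ℕ) = 2 * 2 by norm_num, pow_mul, pow_mul, Real.sq_sqrt hF0, Real.sq_sqrt hG0]
    rw [h4] at h3
    have h5 : Λ * (F ^ 2 * G ^ 2) < (F ^ 2 * G ^ 2) * Tr χ A B := lt_of_lt_of_le h3 h2
    have h6 : 0 < F ^ 2 * G ^ 2 := by
      by_contra hneg
      have h7 : F ^ 2 * G ^ 2 = 0 := le_antisymm (not_lt.1 hneg) (by positivity)
      rw [h7] at h5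
      simp at h5
    nlinarith
  have h2 : (E.ncard : ℝ) * Λ ≤ ∑ χ : DirichletCharacter ℂ p, Tr χ A B := by
    rw [Set.ncard_eq_toFinset_card' E, ← nsmul_eq_mul, ← Finset.sum_const]
    calc ∑ _χ ∈ E.toFinset, Λ ≤ ∑ χ ∈ E.toFinset, Tr χ A B :=
          sum_le_sum fun χ hχ => h1 χ (Set.mem_toFinset.1 hχ)
      _ ≤ _ := sum_le_sum_of_subset_of_nonneg (subset_univ _) (fun χ _ _ =>
          sum_nonneg fun _ _ => sum_nonneg fun _ _ => by positivity)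
  have h3 := h2.trans (sum_Tr A B)
  rw [← le_div_iff₀ hΛ0] at h3
  refine h3.trans (le_of_eq ?_)
  rw [hΛ2, Real.rpow_neg hp0.le, Real.rpow_add hp0, Real.rpow_one]
  field_simp

end Pool.Agent.Q130.LS
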