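import Pool.Agent.H735CB.LSFinal

/-! # Double character sums, one set fixed, the other arbitrary, for almost all primes -/

set_option autoImplicit false

open Finset

namespace Pool.Agent.Q130.LS

open Pool.Agent.H735CB.LSv

/-- the inner sum -/
noncomputable def S (p : ℕ) (χ : DirichletCharacter ℂ p) (A : Finset ℕ) (w : ℕ → ℝ) (b : ℕ) : ℂ :=
  ∑ a ∈ A, (w a : ℂ) * χ ((a + b : ℕ) : ZMod p)

theorem S_eq (N p : ℕ) (χ : DirichletCharacter ℂ p) (A : Finset ℕ) (hA : A ⊆ Icc 1 N)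
    (w : ℕ → ℝ) (b : ℕ) (hb : b ≤ N) :
    S p χ A w b = ∑ m ∈ Icc 1 (2 * N),
      (((if b ≤ m ∧ m - b ∈ A then w (m - b) else 0 : ℝ)) : ℂ) * χ (m : ZMod p) := by
  have h1 : ∀ m : ℕ, ((((if b ≤ m ∧ m - b ∈ A then w (m - b) else 0 : ℝ)) : ℂ) * χ (m : ZMod p)) =
      if b ≤ m ∧ m - b ∈ A then (w (m - b) : ℂ) * χ (m : ZMod p) else 0 := by
    intro m
    split_ifs <;> simp
  simp_rw [h1]
  rw [← sum_filter]
  unfold S
  symm
  refine sum_bij' (fun m _ => m - b) (fun a _ => a + b) ?_ ?_ ?_ ?_ ?_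
  · intro m hm
    exact (mem_filter.1 hm).2.2
  · intro a ha
    have := mem_Icc.1 (hA ha)
    rw [mem_filter, mem_Icc]
    refine ⟨⟨by omega, by omega⟩, by omega, ?_⟩
    rwa [Nat.add_sub_cancel]
  · intro m hm
    have := (mem_filter.1 hm).2.1
    omega
  · intro a ha
    omega
  · intro m hm
    have h2 := (mem_filter.1 hm).2.1
    rw [Nat.sub_add_cancel h2]

theorem coef_sq (N : ℕ) (A : Finset ℕ) (w : ℕ → ℝ) (hw : ∀ a, |w a| ≤ 1) (b : ℕ) :
    ∑ m ∈ Icc 1 (2 * N), ((if b ≤ m ∧ m - b ∈ A then w (m - b) else 0 : ℝ)) ^ 2 ≤ A.card := by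
  have h1 : ∀ m : ℕ, ((if b ≤ m ∧ m - b ∈ A then w (m - b) else 0 : ℝ)) ^ 2 =
      if b ≤ m ∧ m - b ∈ A then (w (m - b)) ^ 2 else 0 := by
    intro m
    split_ifs <;> simp
  simp_rw [h1]
  rw [← sum_filter]
  calc ∑ m ∈ (Icc 1 (2 * N)).filter (fun m => b ≤ m ∧ m - b ∈ A), (w (m - b)) ^ 2
      ≤ ∑ m ∈ (Icc 1 (2 * N)).filter (fun m => b ≤ m ∧ m - b ∈ A), (1 : ℝ) := by
        refine sum_le_sum fun m _ => ?_
        rw [← sq_abs]
        exact pow_le_one₀ (abs_nonneg _) (hw _)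
    _ = (((Icc 1 (2 * N)).filter (fun m => b ≤ m ∧ m - b ∈ A)).card : ℝ) := by simp
    _ ≤ A.card := by
        norm_cast
        apply card_le_card_of_injOn (fun m => m - b)
        · intro m hm
          exact mem_coe.2 (mem_filter.1 (mem_coe.1 hm)).2.2
        · intro m hm m' hm' h
          have a1 := (mem_filter.1 (mem_coe.1 hm)).2.1
          have a2 := (mem_filter.1 (mem_coe.1 hm')).2.1
          have : m - b = m' - b := h
          omega

open Classical in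
/-- the moment summed over the shifts -/
theorem moment (Q N k : ℕ) (A : Finset ℕ) (hA : A ⊆ Icc 1 N) (w : ℕ → ℝ) (hw : ∀ a, |w a| ≤ 1)
    (B : ℝ) (hB0 : 0 ≤ B)
    (hB : ∀ n ∈ Icc 1 ((2 * N) ^ k), (((Fintype.piFinset (fun _ : Fin k => Icc 1 (2 * N))).filter
      (fun d => ∏ i, d i = n)).card : ℝ) ≤ B) :
    ∑ p ∈ (Icc 1 Q).filter Nat.Prime,
      ∑ χ ∈ (univ : Finset (DirichletCharacter ℂ p)).filter (fun χ => χ ≠ 1),
        ∑ b ∈ range (N + 1), ‖S p χ A w b‖ ^ (2 * k)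
      ≤ (N + 1) * (6 * (((2 * N) ^ k : ℕ) + (Q : ℝ) ^ 2) * (B * (A.card : ℝ) ^ k)) := by
  have h1 : ∀ b ∈ range (N + 1), ∑ p ∈ (Icc 1 Q).filter Nat.Prime,
      ∑ χ ∈ (univ : Finset (DirichletCharacter ℂ p)).filter (fun χ => χ ≠ 1),
        ‖S p χ A w b‖ ^ (2 * k) ≤ 6 * (((2 * N) ^ k : ℕ) + (Q : ℝ) ^ 2) * (B * (A.card : ℝ) ^ k) := by
    intro b hb
    have hb' : b ≤ N := by rw [mem_range] at hb; omega
    have hm := moment_primes Q (2 * N) k
      (fun m => (if b ≤ m ∧ m - b ∈ A then w (m - b) else 0 : ℝ)) B hB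
    have h2 : ∑ p ∈ (Icc 1 Q).filter Nat.Prime,
      ∑ χ ∈ (univ : Finset (DirichletCharacter ℂ p)).filter (fun χ => χ ≠ 1),
        ‖S p χ A w b‖ ^ (2 * k) = ∑ p ∈ (Icc 1 Q).filter Nat.Prime,
      ∑ χ ∈ (univ : Finset (DirichletCharacter ℂ p)).filter (fun χ => χ ≠ 1),
        ‖∑ m ∈ Icc 1 (2 * N), (((if b ≤ m ∧ m - b ∈ A then w (m - b) else 0 : ℝ)) : ℂ) *
          χ (m : ZMod p)‖ ^ (2 * k) := by
      refine sum_congr rfl fun p _ => sum_congr rfl fun χ _ => ?_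
      rw [S_eq N p χ A hA w b hb']
    rw [h2]
    refine hm.trans ?_
    apply mul_le_mul_of_nonneg_left _ (by positivity)
    apply mul_le_mul_of_nonneg_left _ hB0
    exact pow_le_pow_left₀ (sum_nonneg fun _ _ => sq_nonneg _) (coef_sq N A w hw b) k
  have h3 : ∑ p ∈ (Icc 1 Q).filter Nat.Prime,
      ∑ χ ∈ (univ : Finset (DirichletCharacter ℂ p)).filter (fun χ => χ ≠ 1),
        ∑ b ∈ range (N + 1), ‖S p χ A w b‖ ^ (2 * k) =
      ∑ b ∈ range (N + 1), ∑ p ∈ (Icc 1 Q).filter Nat.Prime,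
      ∑ χ ∈ (univ : Finset (DirichletCharacter ℂ p)).filter (fun χ => χ ≠ 1),
        ‖S p χ A w b‖ ^ (2 * k) := by
    rw [sum_comm (s := range (N + 1))]
    exact sum_congr rfl fun p _ => sum_comm
  rw [h3]
  refine (sum_le_sum h1).trans (le_of_eq ?_)
  rw [sum_const, card_range, nsmul_eq_mul]
  push_cast
  ring

/-- the exceptional characters: for some large set `B` the double sum is large -/
def Bad (p : ℕ) (N : ℕ) (A : Finset ℕ) (w : ℕ → ℝ) (T L : ℝ) : Set (DirichletCharacter ℂ p) :=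
  {χ | χ ≠ 1 ∧ ∃ B : Finset ℕ, B ⊆ range (N + 1) ∧ T ≤ B.card ∧
    L * A.card * B.card < ∑ b ∈ B, ‖S p χ A w b‖}

open Classical in
theorem bad_count (Q N k : ℕ) (hk : k ≠ 0) (A : Finset ℕ) (hA : A ⊆ Icc 1 N) (w : ℕ → ℝ)
    (hw : ∀ a, |w a| ≤ 1) (T L : ℝ) (hT : 0 < T) (hL : 0 ≤ L)
    (B : ℝ) (hB0 : 0 ≤ B)
    (hB : ∀ n ∈ Icc 1 ((2 * N) ^ k), (((Fintype.piFinset (fun _ : Fin k => Icc 1 (2 * N))).filter
      (fun d => ∏ i, d i = n)).card : ℝ) ≤ B) :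
    (∑ p ∈ (Icc 1 Q).filter Nat.Prime, ((Bad p N A w T L).ncard : ℝ)) *
      (T * (L * A.card) ^ (2 * k)) ≤
      (N + 1) * (6 * (((2 * N) ^ k : ℕ) + (Q : ℝ) ^ 2) * (B * (A.card : ℝ) ^ k)) := by
  refine le_trans ?_ (moment Q N k A hA w hw B hB0 hB)
  rw [sum_mul]
  refine sum_le_sum fun p hp => ?_
  rw [Set.ncard_eq_toFinset_card' (Bad p N A w T L), ← nsmul_eq_mul, ← Finset.sum_const]
  calc ∑ _χ ∈ (Bad p N A w T L).toFinset, T * (L * A.card) ^ (2 * k)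
      ≤ ∑ χ ∈ (Bad p N A w T L).toFinset, ∑ b ∈ range (N + 1), ‖S p χ A w b‖ ^ (2 * k) := by
        refine sum_le_sum fun χ hχ => ?_
        obtain ⟨_, D, hD1, hD2, hD3⟩ := (Set.mem_toFinset.1 hχ)
        have hD0 : (0 : ℝ) < D.card := lt_of_lt_of_le hT hD2
        have hpow : ((L * A.card) * D.card) ^ (2 * k) ≤
            (D.card : ℝ) ^ (2 * k - 1) * ∑ b ∈ D, ‖S p χ A w b‖ ^ (2 * k) := by
          refine (pow_le_pow_left₀ (by positivity) hD3.le (2 * k)).trans ?_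
          obtain ⟨j, hj⟩ := Nat.exists_eq_succ_of_ne_zero (show 2 * k ≠ 0 by omega)
          rw [hj, Nat.succ_eq_add_one, Nat.add_sub_cancel]
          have h4 := pow_sum_div_card_le_sum_pow (s := D) (f := fun b => ‖S p χ A w b‖)
            (fun _ _ => norm_nonneg _) j
          rw [div_le_iff₀ (by positivity)] at h4
          rw [mul_comm]
          exact h4
        have h2 : (D.card : ℝ) * (L * A.card) ^ (2 * k) ≤ ∑ b ∈ D, ‖S p χ A w b‖ ^ (2 * k) := by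
          have e1 : ((L * A.card) * D.card) ^ (2 * k) =
              (D.card : ℝ) ^ (2 * k - 1) * ((D.card : ℝ) * (L * A.card) ^ (2 * k)) := by
            obtain ⟨j, hj⟩ := Nat.exists_eq_succ_of_ne_zero (show 2 * k ≠ 0 by omega)
            rw [hj, Nat.succ_eq_add_one, Nat.add_sub_cancel]
            ring
          rw [e1] at hpow
          exact le_of_mul_le_mul_left hpow (by positivity)
        calc T * (L * A.card) ^ (2 * k) ≤ (D.card : ℝ) * (L * A.card) ^ (2 * k) := by gcongr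
          _ ≤ _ := h2
          _ ≤ _ := sum_le_sum_of_subset_of_nonneg hD1 (fun _ _ _ => by positivity)
    _ ≤ _ := sum_le_sum_of_subset_of_nonneg (fun χ hχ => by
        rw [mem_filter]
        exact ⟨mem_univ _, (Set.mem_toFinset.1 hχ).1⟩) (fun _ _ _ => by positivity)

end Pool.Agent.Q130.LS
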